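import Pool.Agent.W2helper26.PB.Stm

/-!
# Project PB, piece DEC: a surjective decoding of bit strings

`runs` maps bit strings onto lists of numbers (lengths of the runs of `true` before each `false`), `grp`
maps lists of numbers onto lists of lists of numbers (split at each `0`). The types with a surjective
`PF` map from the lists of numbers are closed under products and lists.
-/

set_option autoImplicit false

namespace Pool.Agent.W2helper28.PB

open Pool.Agent.H583R2 Pool.Agent.W2helper26.PB

/-- step of `runs` -/
def rstep (b : Bool) (l : List ℕ) : List ℕ :=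
  if b then (match l with | [] => [] | n :: t => (n + 1) :: t) else 0 :: l

/-- the lengths of the runs of `true` before each `false` -/
def runs (x : List Bool) : List ℕ := x.foldr rstep []

theorem sz_rstep (b : Bool) (l : List ℕ) : sz (rstep b l) ≤ sz l + 2 := by
  cases b with
  | false =>
    change sz (0 :: l) ≤ _
    rw [sz_cons, sz_zero]; omega
  | true =>
    cases l with
    | nil => change sz ([] : List ℕ) ≤ _; omega
    | cons n t =>
      change sz ((n + 1) :: t) ≤ _
      rw [sz_cons, sz_cons, sz_succ]; omega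

theorem pf_runs : PF runs := by
  refine PF.foldrAdd (l := fun x : List Bool => x) (s := fun _ => ([] : List ℕ))
    (f := fun _ b l => rstep b l) PF.id (PF.const [])
    (inc := fun _ => 2) (bnd := fun _ => 0) ?_ (PB.const 2) (PB.const 0) ?_
  · have h1 : PF (fun p : List Bool × Bool × List ℕ =>
        (match p.2.2 with | [] => ([] : List ℕ) | n :: t => (n + 1) :: t)) :=
      (PF.listCase (l := fun p : List Bool × Bool × List ℕ => p.2.2)
        (g := fun _ => ([] : List ℕ)) (h := fun _ n t => (n + 1) :: t) (PF.snd' PF.snd)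
        (PF.const []) (PF.cons (PF.succ (PF.fst' PF.snd)) (PF.snd' PF.snd))).congr (by
          rintro ⟨a, b, l⟩
          cases l <;> rfl)
    exact (PF.ite (b := fun p : List Bool × Bool × List ℕ => p.2.1) (PF.fst' PF.snd) h1
      (PF.cons (PF.const 0) (PF.snd' PF.snd))).congr (by
        rintro ⟨a, b, l⟩
        rfl)
  · intro a x _ st
    exact (sz_rstep x st).trans (le_max_left _ _)

theorem runs_rep (n k : ℕ) (y : List Bool) (t : List ℕ) (h : runs y = k :: t) :
    runs (List.replicate n true ++ y) = (k + n) :: t := by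
  induction n with
  | zero => exact h
  | succ n ih =>
    change rstep true (runs (List.replicate n true ++ y)) = _
    rw [ih]
    rfl

theorem runs_surj : Function.Surjective runs := by
  intro l
  induction l with
  | nil => exact ⟨[], rfl⟩
  | cons n t ih =>
    obtain ⟨x, hx⟩ := ih
    refine ⟨List.replicate n true ++ false :: x, ?_⟩
    have h1 : runs (false :: x) = 0 :: t := by
      change rstep false (runs x) = _
      rw [hx]
      rfl
    rw [runs_rep n 0 _ t h1, Nat.zero_add]

/-- step of `grp` -/
def gstep (x : ℕ) (l : List (List ℕ)) : List (List ℕ) :=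
  match x with
  | 0 => [] :: l
  | n + 1 => match l with | [] => [] | g :: t => (n :: g) :: t

/-- the groups between the zeros -/
def grp (x : List ℕ) : List (List ℕ) := x.foldr gstep []

theorem sz_gstep (x : ℕ) (l : List (List ℕ)) : sz (gstep x l) ≤ sz l + (sz x + 2) := by
  cases x with
  | zero =>
    change sz ([] :: l) ≤ _
    rw [sz_cons, sz_nil]; omega
  | succ n =>
    cases l with
    | nil => change sz ([] : List (List ℕ)) ≤ _; omega
    | cons g t =>
      change sz ((n :: g) :: t) ≤ _
      rw [sz_cons, sz_cons, sz_cons, sz_succ]; omega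

theorem pf_grp : PF grp := by
  refine PF.foldrAdd (l := fun x : List ℕ => x) (s := fun _ => ([] : List (List ℕ)))
    (f := fun _ b l => gstep b l) PF.id (PF.const [])
    (inc := fun x => sz x + 2) (bnd := fun _ => 0) ?_ (PB.szId.add (PB.const 2)) (PB.const 0) ?_
  · have h1 : PF (fun p : (List ℕ × ℕ × List (List ℕ)) × ℕ =>
        (match p.1.2.2 with | [] => ([] : List (List ℕ)) | g :: t => (p.2 :: g) :: t)) :=
      (PF.listCase (l := fun p : (List ℕ × ℕ × List (List ℕ)) × ℕ => p.1.2.2)
        (g := fun _ => ([] : List (List ℕ))) (h := fun p g t => (p.2 :: g) :: t)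
        (PF.snd' (PF.snd' PF.fst)) (PF.const [])
        (PF.cons (PF.cons (PF.snd' PF.fst) (PF.fst' PF.snd)) (PF.snd' PF.snd))).congr (by
          rintro ⟨⟨a, b, l⟩, n⟩
          cases l <;> rfl)
    exact (PF.natCase (l := fun p : List ℕ × ℕ × List (List ℕ) => p.2.1)
      (g := fun p => [] :: p.2.2)
      (h := fun p n => match p.2.2 with | [] => [] | g :: t => (n :: g) :: t) (PF.fst' PF.snd)
      (PF.cons (PF.const []) (PF.snd' PF.snd)) h1).congr (by
        rintro ⟨a, b, l⟩
        cases b with
        | zero => rfl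
        | succ n => cases l <;> rfl)
  · intro a x hx st
    have h1 := sz_gstep x st
    have h2 := sz_mem hx
    refine le_trans ?_ (le_max_left _ _)
    beta_reduce
    omega

theorem grp_map (g : List ℕ) (y : List ℕ) (t : List (List ℕ)) (h : grp y = [] :: t) :
    grp (g.map (· + 1) ++ y) = g :: t := by
  induction g with
  | nil => exact h
  | cons n g ih =>
    change gstep (n + 1) (grp (g.map (· + 1) ++ y)) = _
    rw [ih]
    rfl

theorem grp_surj : Function.Surjective grp := by
  intro l
  induction l with
  | nil => exact ⟨[], rfl⟩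
  | cons g t ih =>
    obtain ⟨x, hx⟩ := ih
    refine ⟨g.map (· + 1) ++ 0 :: x, grp_map g _ t ?_⟩
    change gstep 0 (grp x) = _
    rw [hx]
    rfl

/-- there is a surjective `PF` map from the lists of numbers -/
def Dec (α : Type) [TEnc α] : Prop := ∃ f : List ℕ → α, Function.Surjective f ∧ PF f

theorem dec_nat : Dec ℕ :=
  ⟨fun l => l.headD 0, fun n => ⟨[n], rfl⟩, PF.headD PF.id (PF.const 0)⟩

theorem dec_bool : Dec Bool := by
  refine ⟨fun l => l.isEmpty, fun b => ?_, PF.isEmpty PF.id⟩
  cases b with
  | false => exact ⟨[0], rfl⟩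
  | true => exact ⟨[], rfl⟩

section

variable {α β : Type} [TEnc α] [TEnc β]

theorem Dec.list (h : Dec α) : Dec (List α) := by
  obtain ⟨f, hs, hf⟩ := h
  refine ⟨fun l => (grp l).map f, ?_, PF.map (f := fun _ x => f x) pf_grp (hf.comp PF.snd)⟩
  exact (List.map_surjective_iff.2 hs).comp grp_surj

theorem Dec.prod (h : Dec α) (h' : Dec β) : Dec (α × β) := by
  obtain ⟨f, hs, hf⟩ := h
  obtain ⟨g, hs', hg⟩ := h'
  refine ⟨fun l => (f ((grp l).headD []), g ((grp l).tail.headD [])), ?_, ?_⟩
  · rintro ⟨a, b⟩
    obtain ⟨u, rfl⟩ := hs a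
    obtain ⟨v, rfl⟩ := hs' b
    obtain ⟨l, hl⟩ := grp_surj [u, v]
    refine ⟨l, ?_⟩
    beta_reduce
    rw [hl]
    rfl
  · exact PF.pair (hf.comp (PF.headD pf_grp (PF.const [])))
      (hg.comp (PF.headD (PF.tail pf_grp) (PF.const [])))

end

theorem dec_ent : Dec Ent := dec_nat.prod (dec_nat.prod dec_nat)

theorem dec_ins : Dec Ins := dec_nat.prod dec_ent.list

theorem dec_code : Dec Code :=
  dec_ins.list.prod (dec_nat.prod (dec_nat.prod (dec_nat.prod ((dec_nat.prod dec_nat).prod
    (dec_nat.prod dec_bool.list)))))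

theorem p_dec : P_dec := by
  obtain ⟨f, hs, hf⟩ := dec_bool.prod (dec_code.prod dec_code)
  exact ⟨fun x => f (runs x), hs.comp runs_surj, hf.comp pf_runs⟩

end Pool.Agent.W2helper28.PB
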